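import Pool.Agent.R443.FT4

/-!
MP_5cc6ce_nt: `n` divides `sum_(k<n) (-1)^k (42k+37) a(k)` for every `n ≥ 1`, where
`a(n) = sum_j (-16)^j C(n,j)^2 C(n-j,j)^2`.
-/

set_option autoImplicit false

namespace Pool.Agent.Results.MP_5cc6ce_nt.SunDvd

open Finset

/-- `a(n) = sum_(0 ≤ j ≤ n) (-16)^j C(n,j)^2 C(n-j,j)^2`. -/
def a (n : ℕ) : ℤ :=
  ∑ j ∈ range (n + 1), (-16) ^ j * ((Nat.choose n j : ℕ) : ℤ) ^ 2 *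
    ((Nat.choose (n - j) j : ℕ) : ℤ) ^ 2

/-- `S(n) = sum_(0 ≤ k < n) (-1)^k (42k+37) a(k)`. -/
def S (n : ℕ) : ℤ := ∑ k ∈ range n, (-1) ^ k * (42 * (k : ℤ) + 37) * a k

theorem result : ∀ n : ℕ, 1 ≤ n → (n : ℤ) ∣ S n := by
  intro n hn
  obtain ⟨m, rfl⟩ : ∃ m, n = m + 1 := ⟨n - 1, by omega⟩
  have h := Pool.Agent.R443.FT.dvd_S m
  push_cast
  exact h

end Pool.Agent.Results.MP_5cc6ce_nt.SunDvd
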